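import Mathlib

set_option autoImplicit false

namespace Pool.Agent.Results.MP_8b9c06_gt.Corners

open Set Filter Topology MeasureTheory Metric BoundedContinuousFunction

abbrev E : Type := EuclideanSpace ℝ (Fin 2)

noncomputable def w (k : ℕ) : ℝ := (1 / 2) ^ (k + 3)

lemma w_pos (k : ℕ) : 0 < w k := by unfold w; positivity

lemma w_sum : HasSum w (1 / 4) := by
  have := hasSum_geometric_two.mul_right ((1 / 2 : ℝ) ^ 3)
  simp only [← pow_add] at this
  exact (show (2 : ℝ) * (1 / 2) ^ 3 = 1 / 4 by norm_num) ▸ this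

lemma sw {f : ℕ → ℝ} {M : ℝ} (h : ∀ k, |f k| ≤ M) : Summable fun k => w k * f k :=
  .of_norm_bounded (w_sum.summable.mul_right M) fun k => by
    rw [norm_mul, Real.norm_of_nonneg (w_pos k).le]
    exact mul_le_mul_of_nonneg_left (h k) (w_pos k).le

lemma tw {f : ℕ → ℝ} {M : ℝ} (h : ∀ k, |f k| ≤ M) : |∑' k, w k * f k| ≤ 1 / 4 * M :=
  tsum_of_norm_bounded (f := fun k => w k * f k) (w_sum.mul_right M) fun k => by
    rw [norm_mul, Real.norm_of_nonneg (w_pos k).le]
    exact mul_le_mul_of_nonneg_left (h k) (w_pos k).le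

lemma pts : ∃ p : ℕ → E, Function.Injective p ∧ (∀ j, ‖p j‖ ≤ 1) ∧
    ∀ j, ‖p j‖ + ∑' k, w k * ‖p j - p k‖ = 1 := by
  let u : ℕ → E := fun k => !₂[Real.cos (w k), Real.sin (w k)]
  have hu : ∀ k, ‖u k‖ = 1 := fun k => by simp [u, EuclideanSpace.norm_eq]
  have b1 : ∀ (r : ℕ →ᵇ ℝ) j k, |‖r j • u j - r k • u k‖| ≤ 2 * ‖r‖ := fun r j k => by
    rw [abs_norm]
    refine (norm_sub_le _ _).trans ?_
    simp only [norm_smul, hu, mul_one]
    linarith [r.norm_coe_le_norm j, r.norm_coe_le_norm k]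
  let Φ : (ℕ →ᵇ ℝ) → ℕ →ᵇ ℝ := fun r => ofNormedAddCommGroupDiscrete
    (fun j => 1 - ∑' k, w k * ‖r j • u j - r k • u k‖) (1 + 1 / 4 * (2 * ‖r‖)) fun j =>
      (norm_sub_le _ _).trans (by simpa using tw (b1 r j))
  have hΦ : ContractingWith (1 / 2) Φ := ⟨by norm_num, .of_dist_le_mul fun r s => by
    refine (dist_le (by positivity)).2 fun j => ?_
    have h : ∀ k, |‖s j • u j - s k • u k‖ - ‖r j • u j - r k • u k‖| ≤ 2 * dist r s := fun k => by
      refine (abs_norm_sub_norm_le _ _).trans ?_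
      rw [sub_sub_sub_comm, ← sub_smul, ← sub_smul, dist_comm, dist_eq_norm]
      exact (le_abs_self _).trans (b1 (s - r) j k)
    have := tw h
    simp only [mul_sub] at this
    rw [(sw (b1 s j)).tsum_sub (sw (b1 r j))] at this
    simp only [Φ, coe_ofNormedAddCommGroupDiscrete, Real.dist_eq, sub_sub_sub_cancel_left]
    refine this.trans_eq ?_
    push_cast
    ring⟩
  obtain ⟨r, hr⟩ : ∃ r, Φ r = r := ⟨_, hΦ.fixedPoint_isFixedPt⟩
  have h1 : ∀ j, 1 - ∑' k, w k * ‖r j • u j - r k • u k‖ = r j := fun j => DFunLike.congr_fun hr j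
  have h2 : ‖r‖ ≤ 1 + 1 / 4 * (2 * ‖r‖) := (norm_le (by positivity)).2 fun j => by
    rw [← h1 j]
    exact (norm_sub_le _ _).trans (by simpa using tw (b1 r j))
  have h3 : ∀ j, 0 ≤ r j ∧ r j ≤ 1 := fun j => by
    have : 0 ≤ ∑' k, w k * ‖r j • u j - r k • u k‖ :=
      tsum_nonneg fun k => mul_nonneg (w_pos k).le (norm_nonneg _)
    constructor <;> linarith [h1 j, le_of_abs_le (tw (b1 r j))]
  have h4 : ‖r‖ ≤ 1 := (norm_le zero_le_one).2 fun j => abs_le.2 ⟨by linarith [h3 j], (h3 j).2⟩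
  have h5 : ∀ j, ‖r j • u j‖ = r j := fun j => by simp [norm_smul, hu, (h3 j).1]
  refine ⟨fun j => r j • u j, fun j k e => ?_, fun j => (h5 j).trans_le (h3 j).2,
    fun j => by rw [h5]; linarith [h1 j]⟩
  have h6 : r j = r k := by rw [← h5, ← h5 k]; exact congrArg _ e
  have h7 : r k ≠ 0 := fun e => by linarith [h1 k, le_of_abs_le (tw (b1 r k))]
  simp only [h6] at e
  have h8 : ∀ k, w k ∈ Icc 0 Real.pi := fun k => ⟨(w_pos k).le,
    (pow_le_one₀ (by norm_num) (by norm_num)).trans (by linarith [Real.pi_gt_three])⟩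
  have h9 := Real.injOn_cos (h8 j) (h8 k) (congrArg (fun v : E => v 0) (smul_right_injective E h7 e))
  simpa using pow_right_injective₀ (by norm_num) (by norm_num) h9

lemma smooth0 (a : E) (ha : a ≠ 0) :
    Tendsto (fun h : E => (‖a + h‖ + ‖a - h‖ - 2 * ‖a‖) / ‖h‖) (𝓝[≠] 0) (𝓝 0) := by
  have h0 := norm_pos_iff.2 ha
  refine squeeze_zero' (eventually_nhdsWithin_of_forall fun h _ => div_nonneg ?_ (norm_nonneg _))
    (g := fun h => ‖h‖ / ‖a‖) (eventually_nhdsWithin_of_forall fun h hh => ?_) ?_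
  · have := norm_add_le (a + h) (a - h)
    rw [add_add_sub_cancel, ← two_smul ℝ a, norm_smul] at this
    simpa using this
  · rw [div_le_div_iff₀ (norm_pos_iff.2 hh) h0]
    have := parallelogram_law_with_norm ℝ a h
    nlinarith [sq_nonneg (‖a + h‖ - ‖a‖), sq_nonneg (‖a - h‖ - ‖a‖)]
  · simpa using ((continuous_norm.div_const ‖a‖).tendsto (0 : E)).mono_left nhdsWithin_le_nhds

section
variable {μ : Measure E} [IsFiniteMeasure μ] {R : ℝ}

lemma intg (hR : ∀ᵐ y ∂μ, ‖y‖ ≤ R) (x : E) : Integrable (fun y => ‖x - y‖) μ :=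
  .of_bound (by fun_prop) (‖x‖ + R) (hR.mono fun y hy => by
    rw [norm_norm]; linarith [norm_sub_le x y])

lemma smooth1 [NullSingletonClass μ] (hR : ∀ᵐ y ∂μ, ‖y‖ ≤ R) (x : E) :
    Tendsto (fun h : E => (∫ y, ‖x + h - y‖ ∂μ + ∫ y, ‖x - h - y‖ ∂μ - 2 * ∫ y, ‖x - y‖ ∂μ) / ‖h‖)
      (𝓝[≠] 0) (𝓝 0) := by
  have := tendsto_integral_filter_of_dominated_convergence (μ := μ) (l := 𝓝[≠] (0 : E))
    (F := fun h y => (‖x - y + h‖ + ‖x - y - h‖ - 2 * ‖x - y‖) / ‖h‖) (f := fun _ => 0) (fun _ => 2)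
    (.of_forall fun h => by fun_prop) (.of_forall fun h => .of_forall fun y => ?_)
    (integrable_const _) ((Measure.ae_ne μ x).mono fun y hy => smooth0 _ (sub_ne_zero.2 hy.symm))
  · simp only [integral_zero] at this
    refine this.congr fun h => ?_
    rw [integral_div, integral_sub, integral_add, integral_const_mul]
    · simp only [add_sub_right_comm, sub_right_comm x h]
    · simpa only [add_sub_right_comm] using intg hR (x + h)
    · simpa only [sub_right_comm x h] using intg hR (x - h)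
    · exact (by simpa only [add_sub_right_comm] using intg hR (x + h) : Integrable _ μ).add
        (by simpa only [sub_right_comm x h] using intg hR (x - h))
    · exact (intg hR x).const_mul 2
  · rw [norm_div, norm_norm]
    refine div_le_of_le_mul₀ (norm_nonneg _) zero_le_two (abs_le.2 ⟨?_, ?_⟩)
    · linarith [norm_sub_norm_le (x - y) (x - y + h), norm_sub_norm_le (x - y) (x - y - h),
        show ‖x - y - (x - y + h)‖ = ‖h‖ by simp, show ‖x - y - (x - y - h)‖ = ‖h‖ by simp]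
    · linarith [norm_add_le (x - y) h, norm_sub_le (x - y) h]

end

lemma cvx (a : E) : ConvexOn ℝ univ fun x : E => ‖x - a‖ := by
  simpa only [dist_eq_norm] using convexOn_univ_dist a

lemma corner {F G : E → ℝ} {c ω : ℝ} {p z : E} (hω : 0 < ω) (hG : ConvexOn ℝ univ G)
    (hG' : Continuous G) (hz : G z < c) (hp : G p = c)
    (hs : Tendsto (fun h : E => (G (p + h) + G (p - h) - 2 * G p) / ‖h‖) (𝓝[≠] 0) (𝓝 0))
    (hF : ∀ q, G q ≤ c → F q ≤ F p) (hL : ∀ x y, F x - F y ≤ 2 * ‖x - y‖)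
    (hc : ∀ h, 2 * F p + 2 * ω * ‖h‖ ≤ F (p + h) + F (p - h)) : False := by
  set M := ‖z - p‖ + 1 with hM
  have M0 : 0 < M := by positivity
  set η := ω / (4 * M) with hη
  have η0 : 0 < η := by positivity
  obtain ⟨δ, δ0, hδ⟩ := Metric.tendsto_nhdsWithin_nhds.1 hs (η * (c - G z)) (mul_pos η0 (sub_pos.2 hz))
  obtain ⟨t, t0, t1, t2, t3⟩ : ∃ t, 0 < t ∧ t < δ ∧ t ≤ 1 ∧ η * t ≤ 1 :=
    ⟨min (δ / 2) (min 1 η⁻¹), by positivity, (min_le_left _ _).trans_lt (half_lt_self δ0),
      (min_le_right _ _).trans (min_le_left _ _), (mul_le_mul_of_nonneg_left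
        ((min_le_right _ _).trans (min_le_right _ _)) η0.le).trans_eq (mul_inv_cancel₀ η0.ne')⟩
  obtain ⟨h, h1, h2⟩ : ∃ h : E, ‖h‖ = t ∧ G (p + h) = G (p - h) := by
    obtain ⟨a, ha⟩ := (NormedSpace.sphere_nonempty (x := (0 : E))).2 t0.le
    obtain ⟨h, h1, h2⟩ := ((isConnected_sphere (by simp [← Module.finrank_eq_rank]) (0 : E)
      t0.le).isPreconnected.image (fun h => G (p + h) - G (p - h))
      (by fun_prop)).ordConnected.uIcc_subset
      (mem_image_of_mem _ ha) (mem_image_of_mem _ (show -a ∈ sphere (0 : E) t by simpa using ha)) (show (0 : ℝ) ∈ _ by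
        simp only [← sub_eq_add_neg, sub_neg_eq_add]
        rcases le_total (G (p + a)) (G (p - a)) with h | h
        · exact mem_uIcc.2 (Or.inl ⟨by linarith, by linarith⟩)
        · exact mem_uIcc.2 (Or.inr ⟨by linarith, by linarith⟩))
    exact ⟨h, by simpa using h1, sub_eq_zero.1 h2⟩
  have h3 := hδ (x := h) (norm_pos_iff.1 (h1 ▸ t0)) (by simpa [h1] using t1)
  rw [dist_zero_right, h1, Real.norm_eq_abs, abs_lt, div_lt_iff₀ t0] at h3
  have key : ∀ x, ‖x - p‖ = t → G x - c ≤ η * t * (c - G z) → F x ≤ F p + 2 * (η * t * M) := by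
    intro x a1 a2
    have a3 := hG.2 (mem_univ x) (mem_univ z) (sub_nonneg.2 t3) (mul_pos η0 t0).le (by ring)
    have a4 := hF _ (a3.trans (by
      simp only [smul_eq_mul]
      nlinarith [mul_pos (mul_pos η0 t0) (mul_pos (mul_pos η0 t0) (sub_pos.2 hz))]))
    have a5 := hL x ((1 - η * t) • x + (η * t) • z)
    rw [show x - ((1 - η * t) • x + (η * t) • z) = (η * t) • (x - z) by module, norm_smul,
      Real.norm_of_nonneg (mul_pos η0 t0).le] at a5
    have a6 : ‖x - z‖ ≤ M := by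
      linarith [norm_sub_le (x - p) (z - p),
        show ‖x - p - (z - p)‖ = ‖x - z‖ by rw [sub_sub_sub_cancel_right]]
    nlinarith [mul_le_mul_of_nonneg_left a6 (mul_pos η0 t0).le]
  have k1 := key (p + h) (by simpa) (by nlinarith [h3.2, mul_pos (mul_pos η0 t0) (sub_pos.2 hz)])
  have k2 := key (p - h) (by simpa) (by nlinarith [h3.2, mul_pos (mul_pos η0 t0) (sub_pos.2 hz)])
  have k3 := hc h
  have k4 : η * t * M = ω * t / 4 := by rw [hη]; field_simp
  rw [h1] at k3
  nlinarith [mul_pos hω t0]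

lemma unit {y : E} (hy : y ≠ 0) : ‖‖y‖⁻¹ • y‖ = 1 := by simp [norm_smul, hy]

lemma radial {H : E → ℝ} (hH : ∀ x y, H x - ‖x‖ - (H y - ‖y‖) ≤ 1 / 4 * ‖x - y‖) {y : E}
    (hy : y ≠ 0) {s : ℝ} (hs : -‖y‖ ≤ s) : |H (y + s • ‖y‖⁻¹ • y) - H y - s| ≤ 1 / 4 * |s| := by
  have h0 := norm_pos_iff.2 hy
  have h1 : ‖y + s • ‖y‖⁻¹ • y‖ = ‖y‖ + s := by
    rw [show y + s • ‖y‖⁻¹ • y = (‖y‖ + s) • ‖y‖⁻¹ • y by
      rw [add_smul, smul_inv_smul₀ h0.ne'], norm_smul, unit hy,
      Real.norm_of_nonneg (by linarith), mul_one]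
  have h2 : ‖s • ‖y‖⁻¹ • y‖ = |s| := by
    rw [norm_smul, unit hy, mul_one, Real.norm_eq_abs]
  have h3 := hH (y + s • ‖y‖⁻¹ • y) y
  have h4 := hH y (y + s • ‖y‖⁻¹ • y)
  rw [norm_sub_rev] at h4
  rw [add_sub_cancel_left, h1, h2] at h3 h4
  exact abs_le.2 ⟨by linarith, by linarith⟩

lemma lip {H : E → ℝ} (hH : ∀ x y, H x - ‖x‖ - (H y - ‖y‖) ≤ 1 / 4 * ‖x - y‖) (x y : E) :
    H x - H y ≤ 2 * ‖x - y‖ := by
  linarith [hH x y, norm_sub_norm_le x y, norm_nonneg (x - y)]

lemma cont {H : E → ℝ} {L : ℝ} (hH : ∀ x y, H x - H y ≤ L * ‖x - y‖) : Continuous H :=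
  (LipschitzWith.of_le_add_mul' L fun x y => by rw [dist_eq_norm]; linarith [hH x y]).continuous

lemma near {H : E → ℝ} (hH : ∀ x y, H x - ‖x‖ - (H y - ‖y‖) ≤ 1 / 4 * ‖x - y‖) {y : E} {δ : ℝ}
    (hy : 1 / 2 ≤ ‖y‖) (h1 : |H y - 1| ≤ δ) (h2 : δ ≤ 1 / 4) :
    ∃ y', H y' = 1 ∧ dist y y' ≤ 2 * δ := by
  have h0 : y ≠ 0 := norm_pos_iff.1 (by linarith)
  have δ0 := (abs_nonneg _).trans h1
  have := cont (lip hH)
  have a1 := abs_le.1 (radial hH h0 (s := 2 * δ) (by linarith))
  have a2 := abs_le.1 (radial hH h0 (s := -(2 * δ)) (by linarith))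
  rw [abs_neg] at a2
  rw [abs_of_nonneg (show 0 ≤ 2 * δ by linarith)] at a1 a2
  obtain ⟨s, hs, e⟩ := intermediate_value_Icc (a := -(2 * δ)) (b := 2 * δ) (by linarith)
    (f := fun s => H (y + s • ‖y‖⁻¹ • y)) (by fun_prop)
    (show (1 : ℝ) ∈ Icc _ _ from ⟨by linarith [abs_le.1 h1], by linarith [abs_le.1 h1]⟩)
  refine ⟨_, e, ?_⟩
  rw [dist_self_add_right, norm_smul, unit h0, mul_one]
  exact abs_le.2 hs

/-- Curves approximable by multifocal ellipses. -/
def Approximable (C : Set E) : Prop :=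
  ∀ ε > 0, ∃ (n : ℕ) (x : Fin n → E) (c : ℝ), (∃ y, ∑ i, ‖y - x i‖ < c) ∧
    Metric.hausdorffEDist {y | ∑ i, ‖y - x i‖ = c} C < ENNReal.ofReal ε

lemma main :
    ∃ K : Set E, IsCompact K ∧ Convex ℝ K ∧ (interior K).Nonempty ∧ Approximable (frontier K) ∧
      ∀ (μ : Measure E), IsFiniteMeasure μ → (∀ y, μ {y} = 0) → (∃ R, ∀ᵐ y ∂μ, ‖y‖ ≤ R) →
        ∀ (m : ℕ) (p : Fin m → E) (c : ℝ), (∃ z, ∫ y, ‖z - y‖ ∂μ + ∑ j, ‖z - p j‖ < c) →
          {x | ∫ y, ‖x - y‖ ∂μ + ∑ j, ‖x - p j‖ = c} ≠ frontier K := by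
  obtain ⟨p, pi, p1, pF⟩ := pts
  let F : E → ℝ := fun x => ‖x‖ + ∑' k, w k * ‖x - p k‖
  have b : ∀ x k, |‖x - p k‖| ≤ ‖x‖ + 1 := fun x k => by
    rw [abs_norm]; linarith [norm_sub_le x (p k), p1 k]
  have b' : ∀ x y k, |‖x - p k‖ - ‖y - p k‖| ≤ ‖x - y‖ := fun x y k => by
    simpa using abs_norm_sub_norm_le (x - p k) (y - p k)
  have hF : ∀ x y, F x - ‖x‖ - (F y - ‖y‖) ≤ 1 / 4 * ‖x - y‖ := fun x y => by
    simp only [F, add_sub_cancel_left]
    rw [← (sw (b x)).tsum_sub (sw (b y))]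
    simpa only [mul_sub] using le_of_abs_le (tw (b' x y))
  have Fc := cont (lip hF)
  have F0 : ∀ x, ‖x‖ ≤ F x := fun x => le_add_of_nonneg_right
    (tsum_nonneg fun k => mul_nonneg (w_pos k).le (norm_nonneg _))
  have F1 : ∀ x, F x ≤ ‖x‖ + 1 / 4 * (‖x‖ + 1) := fun x => add_le_add_right
    (le_of_abs_le (tw (b x))) _
  have Fv : ConvexOn ℝ univ F := convexOn_univ_norm.add ⟨convex_univ, fun x _ y _ s t hs ht e => by
    simp only [smul_eq_mul, ← tsum_mul_left]
    rw [← ((sw (b x)).mul_left s).tsum_add ((sw (b y)).mul_left t)]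
    refine (sw (b _)).tsum_le_tsum (fun k => ?_)
      (((sw (b x)).mul_left s).add ((sw (b y)).mul_left t))
    have := mul_le_mul_of_nonneg_left ((cvx (p k)).2 (mem_univ x) (mem_univ y) hs ht e) (w_pos k).le
    simp only [smul_eq_mul] at this
    linarith⟩
  have fr : frontier {x | F x ≤ 1} = {x | F x = 1} := by
    refine (frontier_le_subset_eq Fc continuous_const).antisymm fun y hy => ?_
    have hy' : F y = 1 := hy
    have h0 : y ≠ 0 := norm_pos_iff.1 (by linarith [F1 y])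
    rw [frontier_eq_closure_inter_closure]
    refine ⟨subset_closure hy'.le, mem_closure_of_tendsto
      (b := 𝓝[>] (0 : ℝ)) (f := fun s => y + s • ‖y‖⁻¹ • y) (tendsto_nhdsWithin_of_tendsto_nhds
        (Continuous.tendsto' (by fun_prop) _ _ (by simp))) ?_⟩
    filter_upwards [self_mem_nhdsWithin] with s (hs : 0 < s) h
    have := abs_le.1 (radial hF h0 (s := s) (by linarith [norm_nonneg y]))
    rw [abs_of_pos hs] at this
    linarith [show F _ ≤ 1 from h]
  refine ⟨{x | F x ≤ 1}, (isCompact_closedBall 0 1).of_isClosed_subset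
    (isClosed_le Fc continuous_const) fun x hx => by simpa using (F0 x).trans hx,
    by simpa using Fv.convex_le 1, ⟨0, mem_interior_iff_mem_nhds.2 ((Fc.tendsto 0).eventually
      (Iic_mem_nhds (by have := F1 0; simp at this; linarith)))⟩, fun ε hε => ?_, ?_⟩
  · have ex : ∀ m, ∃ (n : ℕ) (x : Fin n → E), ∀ y, ∑ i, ‖y - x i‖ =
        2 ^ (m + 2) * (‖y‖ + ∑ k ∈ Finset.range m, w k * ‖y - p k‖) := fun m => by
      induction m with
      | zero => exact ⟨4, 0, fun y => by simp; norm_num⟩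
      | succ m ih =>
        obtain ⟨n, x, h⟩ := ih
        refine ⟨n + n + 1, Fin.cons (p m) (Fin.append x x), fun y => ?_⟩
        have : (2 : ℝ) ^ (m + 1 + 2) * w m = 1 := by rw [w, ← mul_pow]; norm_num
        simp only [Fin.sum_univ_succ, Fin.cons_zero, Fin.cons_succ, Fin.sum_univ_add,
          Fin.append_left, Fin.append_right, h, Finset.sum_range_succ]
        linear_combination -‖y - p m‖ * this
    obtain ⟨m, hm⟩ := exists_pow_lt_of_lt_one (lt_min hε one_pos) (show (1 / 2 : ℝ) < 1 by norm_num)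
    rw [lt_min_iff] at hm
    obtain ⟨n, x, h⟩ := ex m
    let H : E → ℝ := fun y => ‖y‖ + ∑ k ∈ Finset.range m, w k * ‖y - p k‖
    have hH : ∀ x y, H x - ‖x‖ - (H y - ‖y‖) ≤ 1 / 4 * ‖x - y‖ := fun x y => by
      simp only [H, add_sub_cancel_left, ← Finset.sum_sub_distrib, ← mul_sub]
      refine (Finset.sum_le_sum fun k _ => mul_le_mul_of_nonneg_left (le_of_abs_le (b' x y k))
        (w_pos k).le).trans ?_
      rw [← Finset.sum_mul]
      exact mul_le_mul_of_nonneg_right (sum_le_hasSum _ (fun k _ => (w_pos k).le) w_sum)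
        (norm_nonneg _)
    have e : ∀ y, F y = H y + (1 / 2) ^ m * ∑' k, w k * ‖y - p (k + m)‖ := fun y => by
      simp only [F, H, ← (sw (b y)).sum_add_tsum_nat_add m, ← tsum_mul_left, add_assoc]
      congr 3
      ext k
      simp only [w]
      ring
    have H0 : ∀ y, ‖y‖ ≤ H y := fun y => le_add_of_nonneg_right
      (Finset.sum_nonneg fun k _ => mul_nonneg (w_pos k).le (norm_nonneg _))
    have c0 : (0 : ℝ) < (1 / 2) ^ m := by positivity
    have HF : ∀ y, H y ≤ F y := fun y => (e y).symm ▸ le_add_of_nonneg_right (mul_nonneg c0.le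
      (tsum_nonneg fun k => mul_nonneg (w_pos k).le (norm_nonneg _)))
    have d : ∀ y, ‖y‖ ≤ 1 → |F y - H y| ≤ (1 / 2) ^ m / 2 := fun y hy => by
      rw [e, add_sub_cancel_left, abs_mul, abs_of_pos c0]
      nlinarith [tw fun k => b y (k + m)]
    have m0 : (1 / 2 : ℝ) ^ m ≤ 1 / 2 := by
      simpa using pow_le_pow_of_le_one (show (0 : ℝ) ≤ 1 / 2 by norm_num) (by norm_num)
        (Nat.one_le_iff_ne_zero.2 fun e => by simp [e] at hm)
    refine ⟨n, x, 2 ^ (m + 2), ⟨0, ?_⟩, ?_⟩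
    · rw [h]
      refine mul_lt_of_lt_one_right (by positivity) ((HF 0).trans_lt ?_)
      have := F1 0
      simp at this
      linarith
    have e2 : {y | ∑ i, ‖y - x i‖ = 2 ^ (m + 2)} = {y | H y = 1} := by
      ext y
      simp [h, H]
    rw [e2, fr]
    refine (hausdorffEDist_le_of_mem_edist (r := ENNReal.ofReal ((1 / 2) ^ m)) (fun y hy => ?_)
      fun y hy => ?_).trans_lt ((ENNReal.ofReal_lt_ofReal_iff hε).2 hm.1)
    · have hy' : H y = 1 := hy
      obtain ⟨y', a1, a2⟩ := near hF (by linarith [F1 y, HF y]) (hy' ▸ d y (hy' ▸ H0 y))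
        (by linarith)
      exact ⟨y', a1, edist_dist y y' ▸ ENNReal.ofReal_le_ofReal (by linarith)⟩
    · have hy' : F y = 1 := hy
      obtain ⟨y', a1, a2⟩ := near hH (by linarith [F1 y])
        (hy' ▸ abs_sub_comm (F y) (H y) ▸ d y (hy' ▸ F0 y)) (by linarith)
      exact ⟨y', a1, edist_dist y y' ▸ ENNReal.ofReal_le_ofReal (by linarith)⟩
  · rintro μ _ hμ ⟨R, hR⟩ m q c ⟨z, hz⟩ e
    have : NullSingletonClass μ := ⟨hμ⟩
    rw [fr] at e
    let G : E → ℝ := fun x => ∫ y, ‖x - y‖ ∂μ + ∑ j, ‖x - q j‖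
    have e' : ∀ x, G x = c ↔ F x = 1 := fun x => Set.ext_iff.1 e x
    obtain ⟨k, hk⟩ : ∃ k, p k ∉ range q := by
      by_contra hn
      push Not at hn
      exact infinite_range_of_injective pi ((finite_range q).subset (range_subset_iff.2 hn))
    have G1 : ∀ x y, G x - G y ≤ (μ.real univ + m) * ‖x - y‖ := fun x y => by
      have h1 := integral_mono ((intg hR x).sub (intg hR y)) (integrable_const ‖x - y‖)
        fun a => by simpa using norm_sub_norm_le (x - a) (y - a)
      have h2 := Finset.sum_le_sum fun j (_ : j ∈ Finset.univ) =>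
        norm_sub_norm_le (x - q j) (y - q j)
      simp only [Pi.sub_apply, integral_sub (intg hR x) (intg hR y), integral_const,
        smul_eq_mul] at h1
      simp only [sub_sub_sub_cancel_right, Finset.sum_sub_distrib, Finset.sum_const,
        Finset.card_univ, Fintype.card_fin, nsmul_eq_mul] at h2
      simp only [G]
      linarith
    have G2 : ∀ x y, (μ.real univ + m) * ‖x - y‖ ≤ G x + G y := fun x y => by
      have h1 := integral_mono (integrable_const ‖x - y‖) ((intg hR x).add (intg hR y))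
        fun a => by simpa using norm_sub_le (x - a) (y - a)
      have h2 := Finset.sum_le_sum fun j (_ : j ∈ Finset.univ) => norm_sub_le (x - q j) (y - q j)
      simp only [Pi.add_apply, integral_add (intg hR x) (intg hR y), integral_const,
        smul_eq_mul] at h1
      simp only [sub_sub_sub_cancel_right, Finset.sum_add_distrib, Finset.sum_const,
        Finset.card_univ, Fintype.card_fin, nsmul_eq_mul] at h2
      simp only [G]
      linarith
    have Gc := cont G1
    have Gp : G (p k) = c := (e' _).2 (pF k)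
    have M0 : 0 < μ.real univ + m := by
      have := G1 (p k) z
      refine lt_of_le_of_ne (by positivity) fun e => ?_
      rw [← e] at this
      linarith [show G z < c from hz]
    refine corner (F := F) (G := G) (w_pos k) ?_ Gc hz Gp ?_ (fun x hx => ?_) (lip hF) fun h => ?_
    · refine ConvexOn.add ⟨convex_univ, fun x _ y _ s t hs ht e => ?_⟩ ?_
      · simp only [smul_eq_mul, ← integral_const_mul]
        rw [← integral_add ((intg hR x).const_mul s) ((intg hR y).const_mul t)]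
        exact integral_mono (intg hR _) (((intg hR x).const_mul s).add ((intg hR y).const_mul t))
          fun a => (cvx a).2 (mem_univ x) (mem_univ y) hs ht e
      · exact ⟨convex_univ, fun x _ y _ s t hs ht e => by
          simpa only [smul_eq_mul, Finset.mul_sum, ← Finset.sum_add_distrib] using
            Finset.sum_le_sum fun j _ => (cvx (q j)).2 (mem_univ x) (mem_univ y) hs ht e⟩
    · have := (smooth1 hR (p k)).add (tendsto_finsetSum Finset.univ fun j _ =>
        smooth0 (p k - q j) (sub_ne_zero.2 fun e => hk ⟨j, e.symm⟩))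
      simp only [Finset.sum_const_zero, add_zero] at this
      refine this.congr fun h => ?_
      simp only [G, ← Finset.sum_div, Finset.sum_sub_distrib, Finset.sum_add_distrib,
        ← Finset.mul_sum, add_sub_right_comm (p k) h, sub_right_comm (p k) h]
      ring
    · rw [show F (p k) = 1 from pF k]
      by_contra hn
      push Not at hn
      have h0 : x ≠ 0 := norm_pos_iff.1 (by linarith [F1 x])
      have h1 : 0 ≤ (c + G x) / (μ.real univ + m) := div_nonneg
        (by linarith [G2 (p k) x, mul_nonneg M0.le (norm_nonneg (p k - x))]) M0.le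
      obtain ⟨s, hs, e⟩ := intermediate_value_Icc h1 (f := fun s => G (x + s • ‖x‖⁻¹ • x))
        (by fun_prop) (show c ∈ Icc _ _ from ⟨by simpa using hx, by
          have := G2 (x + ((c + G x) / (μ.real univ + m)) • ‖x‖⁻¹ • x) x
          rw [add_sub_cancel_left, norm_smul, unit h0, mul_one,
            Real.norm_of_nonneg h1, mul_div_cancel₀ _ M0.ne'] at this
          linarith⟩)
      have := abs_le.1 (radial hF h0 (s := s) (by linarith [norm_nonneg x, hs.1]))
      rw [abs_of_nonneg hs.1, (e' _).1 e] at this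
      linarith [hs.1]
    · have tri : ∀ a : E, 2 * ‖a‖ ≤ ‖a + h‖ + ‖a - h‖ := fun a => by
        have := norm_add_le (a + h) (a - h)
        rw [add_add_sub_cancel, ← two_smul ℝ a, norm_smul] at this
        simpa using this
      have h1 := ((sw (b (p k + h))).add (sw (b (p k - h)))).sub ((sw (b (p k))).mul_left 2)
      have h2 := h1.le_tsum k fun j _ => by
        rw [add_sub_right_comm (p k) h, sub_right_comm (p k) h]
        nlinarith [tri (p k - p j), w_pos j]
      rw [((sw (b (p k + h))).add (sw (b (p k - h)))).tsum_sub ((sw (b (p k))).mul_left 2),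
        (sw (b (p k + h))).tsum_add (sw (b (p k - h))), tsum_mul_left] at h2
      simp only [add_sub_cancel_left, sub_sub_cancel_left, norm_neg, sub_self, norm_zero] at h2
      simp only [F]
      linarith [tri (p k)]

/-- A closed convex curve which is approximable by multifocal ellipses but is not a level set of a
distance integral of an atomless measure plus finitely many distances; in particular not of
area on a bounded open set plus length on a compact set of finite length plus finitely many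
distances. -/
theorem result :
    ∃ K : Set E, IsCompact K ∧ Convex ℝ K ∧ (interior K).Nonempty ∧ Approximable (frontier K) ∧
      (∀ (μ : Measure E), IsFiniteMeasure μ → (∀ y, μ {y} = 0) → (∃ R, ∀ᵐ y ∂μ, ‖y‖ ≤ R) →
        ∀ (m : ℕ) (p : Fin m → E) (c : ℝ), (∃ z, ∫ y, ‖z - y‖ ∂μ + ∑ j, ‖z - p j‖ < c) →
          {x | ∫ y, ‖x - y‖ ∂μ + ∑ j, ‖x - p j‖ = c} ≠ frontier K) ∧
      ∀ Ω Γ : Set E, IsOpen Ω → Bornology.IsBounded Ω → IsCompact Γ → μH[1] Γ < ⊤ →
        ∀ (m : ℕ) (p : Fin m → E) (c : ℝ),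
          (∃ z, (∫ y in Ω, ‖z - y‖) + ∫ y in Γ, ‖z - y‖ ∂μH[1] + ∑ j, ‖z - p j‖ < c) →
          {x | (∫ y in Ω, ‖x - y‖) + ∫ y in Γ, ‖x - y‖ ∂μH[1] + ∑ j, ‖x - p j‖ = c} ≠
            frontier K := by
  obtain ⟨K, h1, h2, h3, h4, h5⟩ := main
  refine ⟨K, h1, h2, h3, h4, h5, fun Ω Γ o b k l m p c => ?_⟩
  obtain ⟨R, hR⟩ := (b.union k.isBounded).exists_norm_le
  have : Fact (volume Ω < ⊤) := ⟨b.measure_lt_top⟩
  have : Fact (μH[1] Γ < ⊤) := ⟨l⟩
  have a1 : ∀ᵐ y ∂volume.restrict Ω, ‖y‖ ≤ R :=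
    ae_restrict_of_forall_mem o.measurableSet fun y hy => hR y (Or.inl hy)
  have a2 : ∀ᵐ y ∂(μH[1] : Measure E).restrict Γ, ‖y‖ ≤ R :=
    ae_restrict_of_forall_mem k.measurableSet fun y hy => hR y (Or.inr hy)
  have := Measure.nullSingletonClass_hausdorff E one_pos
  simpa only [integral_add_measure (intg a1 _) (intg a2 _)] using
    h5 (volume.restrict Ω + μH[1].restrict Γ) inferInstance (fun y => by simp)
      ⟨R, ae_add_measure_iff.2 ⟨a1, a2⟩⟩ m p c

end Pool.Agent.Results.MP_8b9c06_gt.Corners
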